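import Mathlib

set_option autoImplicit false

/-!
# The radical of an integer polynomial and its zeros modulo integers
-/

namespace Pool.Agent.L0h43.PL

open Finset Polynomial

/-- clearing denominators -/
theorem clear (p : ℚ[X]) : ∃ (b : ℤ) (P : ℤ[X]), b ≠ 0 ∧ P.map (Int.castRingHom ℚ) = C (b : ℚ) * p := by
  obtain ⟨b, hb0, hb⟩ := IsLocalization.integerNormalization_spec (nonZeroDivisors ℤ) p
  refine ⟨b, IsLocalization.integerNormalization (nonZeroDivisors ℤ) p,
    nonZeroDivisors.ne_zero hb0, ?_⟩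
  have : (algebraMap ℤ ℚ) = Int.castRingHom ℚ := rfl
  rw [this] at hb
  rw [hb]
  ext n
  simp

theorem dvd_radical_pow {F : ℚ[X]} (hF : F ≠ 0) {μ : ℕ}
    (hμ : ∀ z : ℂ, (F.map (algebraMap ℚ ℂ)).rootMultiplicity z ≤ μ) :
    F ∣ (UniqueFactorizationMonoid.radical F) ^ μ := by
  classical
  have hG0 : F.map (algebraMap ℚ ℂ) ≠ 0 := by
    rw [Ne, Polynomial.map_eq_zero]
    exact hF
  have hcount : ∀ q ∈ UniqueFactorizationMonoid.normalizedFactors F,
      (UniqueFactorizationMonoid.normalizedFactors F).count q ≤ μ := by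
    intro q hq
    set e := (UniqueFactorizationMonoid.normalizedFactors F).count q with he
    have hqi := UniqueFactorizationMonoid.irreducible_of_normalized_factor q hq
    have h1 : Multiset.replicate e q ≤ UniqueFactorizationMonoid.normalizedFactors F :=
      Multiset.le_count_iff_replicate_le.1 le_rfl
    have h2 : q ^ e ∣ F := by
      have h3 := Multiset.prod_dvd_prod_of_le h1
      rw [Multiset.prod_replicate] at h3
      exact h3.trans (UniqueFactorizationMonoid.prod_normalizedFactors hF).dvd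
    have hdeg : q.degree ≠ 0 := by
      intro h0
      exact hqi.not_isUnit (isUnit_iff_degree_eq_zero.2 h0)
    obtain ⟨z, hz⟩ := IsAlgClosed.exists_aeval_eq_zero ℂ q hdeg
    refine le_trans ?_ (hμ z)
    rw [Polynomial.le_rootMultiplicity_iff hG0]
    have h4 : (X - C z) ∣ q.map (algebraMap ℚ ℂ) := by
      rw [Polynomial.dvd_iff_isRoot, IsRoot.def, Polynomial.eval_map, ← Polynomial.aeval_def]
      exact hz
    have h5 : q.map (algebraMap ℚ ℂ) ^ e ∣ F.map (algebraMap ℚ ℂ) := by
      rw [← Polynomial.map_pow]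
      exact Polynomial.map_dvd _ h2
    exact (pow_dvd_pow_of_dvd h4 e).trans h5
  have hle : UniqueFactorizationMonoid.normalizedFactors F ≤
      μ • (UniqueFactorizationMonoid.normalizedFactors F).dedup := by
    rw [Multiset.le_iff_count]
    intro q
    rw [Multiset.count_nsmul]
    by_cases hq : q ∈ UniqueFactorizationMonoid.normalizedFactors F
    · rw [Multiset.count_dedup, if_pos hq, mul_one]
      exact hcount q hq
    · rw [Multiset.count_eq_zero_of_notMem hq]
      exact Nat.zero_le _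
  have h6 := Multiset.prod_dvd_prod_of_le hle
  rw [Multiset.prod_nsmul] at h6
  have h7 : UniqueFactorizationMonoid.radical F =
      (UniqueFactorizationMonoid.normalizedFactors F).dedup.prod := by
    unfold UniqueFactorizationMonoid.radical UniqueFactorizationMonoid.primeFactors
    rw [Finset.prod_eq_multiset_prod]
    simp only [Multiset.toFinset_val, id, Multiset.map_id']
    have key : ∀ (i1 i2 : DecidableEq ℚ[X]) (s : Multiset ℚ[X]),
        (@Multiset.dedup _ i1 s).prod = (@Multiset.dedup _ i2 s).prod := by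
      intro i1 i2 s
      rw [Subsingleton.elim i1 i2]
    exact key _ _ _
  rw [h7]
  exact (UniqueFactorizationMonoid.prod_normalizedFactors hF).symm.dvd.trans h6

/-- a separable integer polynomial `h` one of whose multiples of `h ^ μ` is divisible by `g` -/
theorem exists_sep {g : ℤ[X]} (hg : 1 ≤ g.natDegree) {μ : ℕ} (hμ1 : 1 ≤ μ)
    (hμ : ∀ z : ℂ, (g.map (Int.castRingHom ℂ)).rootMultiplicity z ≤ μ) :
    ∃ (h u v : ℤ[X]) (Δ c : ℤ), Δ ≠ 0 ∧ c ≠ 0 ∧ 1 ≤ h.natDegree ∧
      u * h + v * derivative h = C Δ ∧ g ∣ C c * h ^ μ := by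
  classical
  have hinj : Function.Injective (Int.castRingHom ℚ) := Int.cast_injective
  set F : ℚ[X] := g.map (Int.castRingHom ℚ) with hF
  have hg0 : g ≠ 0 := by
    intro h0
    rw [h0] at hg
    simp at hg
  have hF0 : F ≠ 0 := by
    rw [hF, Ne, Polynomial.map_eq_zero_iff hinj]
    exact hg0
  have hFdeg : F.natDegree = g.natDegree := Polynomial.natDegree_map_eq_of_injective hinj g
  have hmap : F.map (algebraMap ℚ ℂ) = g.map (Int.castRingHom ℂ) := by
    rw [hF, Polynomial.map_map]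
    congr 1
  have hdvd : F ∣ (UniqueFactorizationMonoid.radical F) ^ μ := by
    apply dvd_radical_pow hF0
    intro z
    rw [hmap]
    exact hμ z
  set r := UniqueFactorizationMonoid.radical F with hr
  have hr0 : r ≠ 0 := UniqueFactorizationMonoid.radical_ne_zero
  have hsq : Squarefree r := UniqueFactorizationMonoid.squarefree_radical
  have hsep : r.Separable := PerfectField.separable_iff_squarefree.2 hsq
  have hrdeg : 1 ≤ r.natDegree := by
    by_contra hlt
    have h0 : r.natDegree = 0 := by omega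
    have hu : IsUnit r := by
      rw [Polynomial.isUnit_iff_degree_eq_zero, Polynomial.degree_eq_natDegree hr0, h0]
      rfl
    have h1 : IsUnit F := isUnit_of_dvd_unit hdvd (hu.pow μ)
    have h2 := Polynomial.natDegree_eq_zero_of_isUnit h1
    omega
  obtain ⟨b, h, hb, hh⟩ := clear r
  have hbQ : (b : ℚ) ≠ 0 := by exact_mod_cast hb
  have hhdeg : h.natDegree = r.natDegree := by
    rw [← Polynomial.natDegree_map_eq_of_injective hinj h, hh,
      Polynomial.natDegree_C_mul hbQ]
  have hsep' : (h.map (Int.castRingHom ℚ)).Separable := by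
    rw [hh]
    exact Polynomial.Separable.unit_mul (Polynomial.isUnit_C.2 (isUnit_iff_ne_zero.2 hbQ)) hsep
  obtain ⟨u0, v0, huv⟩ := hsep'
  obtain ⟨s, U, hs, hU⟩ := clear u0
  obtain ⟨t, V, ht, hV⟩ := clear v0
  obtain ⟨q0, hq0⟩ : F ∣ (h.map (Int.castRingHom ℚ)) ^ μ := by
    rw [hh, mul_pow]
    exact hdvd.mul_left _
  obtain ⟨c, Q, hc, hQ⟩ := clear q0
  refine ⟨h, C t * U, C s * V, s * t, c, mul_ne_zero hs ht, hc, by omega, ?_, ⟨Q, ?_⟩⟩
  · apply Polynomial.map_injective (Int.castRingHom ℚ) hinj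
    simp only [Polynomial.map_add, Polynomial.map_mul, Polynomial.map_C, hU, hV,
      ← Polynomial.derivative_map]
    simp only [eq_intCast, Int.cast_mul, C_mul]
    linear_combination (C (s : ℚ)) * (C (t : ℚ)) * huv
  · apply Polynomial.map_injective (Int.castRingHom ℚ) hinj
    simp only [Polynomial.map_mul, Polynomial.map_C, Polynomial.map_pow, hQ]
    rw [hq0, ← hF]
    simp only [eq_intCast]
    ring

/-- zeros of a separable polynomial which are close modulo all the primes of `M` are close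
modulo `M` -/
theorem lift_key {h u v : ℤ[X]} {Δ : ℤ}
    (e : u * h + v * derivative h = C Δ) {M : ℕ} {a b : ℤ}
    (ha : (M : ℤ) ∣ h.eval a) (hb : (M : ℤ) ∣ h.eval b)
    (hab : ∀ p : ℕ, p.Prime → p ∣ M → ((p : ℤ) * Δ) ∣ a - b) : (M : ℤ) ∣ Δ * (a - b) := by
  obtain ⟨k, hk⟩ := Polynomial.binomExpansion h b (a - b)
  rw [add_sub_cancel] at hk
  set G : ℤ := (derivative h).eval b + k * (a - b) with hG
  have h1 : (M : ℤ) ∣ (a - b) * G := by
    have h2 : (a - b) * G = h.eval a - h.eval b := by rw [hk, hG]; ring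
    rw [h2]
    exact dvd_sub ha hb
  have hgcd : (Int.gcd (M : ℤ) G) ∣ Δ.natAbs := by
    rw [Nat.dvd_iff_prime_pow_dvd_dvd]
    intro p j hp hpj
    have hpM : (p ^ j : ℕ) ∣ M := by
      have := hpj.trans (Int.gcd_dvd_natAbs_left (M : ℤ) G)
      simpa using this
    have hpG : ((p ^ j : ℕ) : ℤ) ∣ G := by
      have h3 : ((Int.gcd (M : ℤ) G : ℕ) : ℤ) ∣ G := Int.gcd_dvd_right _ _
      exact (Int.natCast_dvd_natCast.2 hpj).trans h3
    clear hpj
    rw [← Int.natCast_dvd]
    induction j with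
    | zero => simp
    | succ j ih =>
      have hd : (p ^ j : ℕ) ∣ (p ^ (j + 1) : ℕ) := pow_dvd_pow p (Nat.le_succ j)
      have ih' := ih (hd.trans hpM) ((Int.natCast_dvd_natCast.2 hd).trans hpG)
      have hpM1 : p ∣ M := (dvd_pow_self p (Nat.succ_ne_zero j)).trans hpM
      have h4 : ((p ^ (j + 1) : ℕ) : ℤ) ∣ a - b := by
        refine dvd_trans ?_ (hab p hp hpM1)
        push_cast at ih' ⊢
        rw [pow_succ, mul_comm]
        exact mul_dvd_mul_left _ ih'
      have h5 : ((p ^ (j + 1) : ℕ) : ℤ) ∣ (derivative h).eval b := by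
        have h6 : (derivative h).eval b = G - k * (a - b) := by rw [hG]; ring
        rw [h6]
        exact dvd_sub hpG (h4.mul_left _)
      have h7 : ((p ^ (j + 1) : ℕ) : ℤ) ∣ h.eval b :=
        (Int.natCast_dvd_natCast.2 hpM).trans hb
      have h8 : Δ = u.eval b * h.eval b + v.eval b * (derivative h).eval b := by
        have := congrArg (Polynomial.eval b) e
        simpa using this.symm
      rw [h8]
      exact dvd_add (h7.mul_left _) (h5.mul_left _)
  -- conclusion
  have h9 : (M : ℤ) ∣ (a - b) * (Int.gcd (M : ℤ) G : ℤ) := by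
    rw [Int.gcd_eq_gcd_ab, mul_add]
    refine dvd_add ?_ ?_
    · exact ((dvd_mul_right _ _).mul_left _)
    · rw [← mul_assoc]
      exact h1.mul_right _
  have h10 : ((Int.gcd (M : ℤ) G : ℕ) : ℤ) ∣ Δ := Int.natCast_dvd.2 hgcd
  rw [mul_comm Δ]
  exact h9.trans (mul_dvd_mul_left _ h10)

/-- the minimal `M` with `N ∣ M ^ μ` -/
theorem exists_min_root {N μ : ℕ} (hN : 0 < N) (hμ : 1 ≤ μ) : ∃ M : ℕ, 0 < M ∧ M ∣ N ∧
    N ∣ M ^ μ ∧ ∀ y : ℤ, (N : ℤ) ∣ y ^ μ → (M : ℤ) ∣ y := by
  classical
  have hex : ∃ M : ℕ, 0 < M ∧ N ∣ M ^ μ := ⟨N, hN, dvd_pow_self N (by omega)⟩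
  set M := Nat.find hex with hM
  obtain ⟨h1, h2⟩ := Nat.find_spec hex
  have hmin : ∀ y : ℕ, N ∣ y ^ μ → M ∣ y := by
    intro y hy
    rcases Nat.eq_zero_or_pos y with h0 | h0
    · rw [h0]; exact dvd_zero _
    have h3 : N ∣ (Nat.gcd M y) ^ μ := by
      have h4 : (Nat.gcd M y) ^ μ = Nat.gcd (M ^ μ) (y ^ μ) := Nat.pow_gcd_pow.symm
      rw [h4]
      exact Nat.dvd_gcd h2 hy
    have h5 : 0 < Nat.gcd M y := Nat.gcd_pos_of_pos_left _ h1
    have h6 := Nat.find_min' hex ⟨h5, h3⟩
    have h7 : Nat.gcd M y ≤ M := Nat.gcd_le_left _ h1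
    have h8 : Nat.gcd M y = M := le_antisymm h7 h6
    rw [← h8]
    exact Nat.gcd_dvd_right _ _
  refine ⟨M, h1, hmin N (dvd_pow_self N (by omega)), h2, fun y hy => ?_⟩
  rw [Int.natCast_dvd] at hy ⊢
  rw [Int.natAbs_pow] at hy
  exact hmin _ hy

end Pool.Agent.L0h43.PL
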