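import Pool.Agent.L0h43.PL.Alg
import Pool.Agent.R330.LT.PolyC
import Pool.Agent.H95R2.Leh.Omega

set_option autoImplicit false

/-!
# Polynomial values with a given divisor: the count
-/

namespace Pool.Agent.L0h43.PL

open Finset Polynomial
open Pool.Agent.H95R2.Leh Pool.Agent.R330.LT

/-- a Lehmer number has a divisor in every interval of fixed ratio -/
theorem exists_div {n : ℕ} (h : Leh n) {R : ℝ} (hR1 : 1 ≤ R)
    (hR : (n.primeFactors.card : ℝ) ≤ R) {z : ℝ} (hz : 1 ≤ z) (hzn : z ≤ n) :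
    ∃ d : ℕ, d ∣ n ∧ z / (16 * R) < (d : ℝ) ∧ (d : ℝ) ≤ z := by
  obtain ⟨k, hk2, hk, -⟩ := leh_k h
  have hF := fam_leh n k R (by omega) hR1
  have hn1 := h.1
  have hst : StL n k R n (2 * n) :=
    ⟨n, h, by omega, le_rfl, hk, hR, Or.inr ⟨rfl, rfl⟩⟩
  exact dense hF hst hz hzn

/-- integers in one class modulo `d` any two of which are congruent modulo `M` after multiplication
by `D` -/
theorem card_le {d M D x : ℕ} (hd : 0 < d) (hM : 0 < M) (hD : 0 < D) (hco : Nat.Coprime d M)
    (S : Finset ℕ) (hS : ∀ m ∈ S, m ≤ x)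
    (h1 : ∀ m ∈ S, ∀ m' ∈ S, m % d = m' % d)
    (h2 : ∀ m ∈ S, ∀ m' ∈ S, (M : ℤ) ∣ D * ((m : ℤ) - m')) :
    S.card ≤ D * x / (d * M) + 1 := by
  classical
  have hinj : Function.Injective (fun m : ℕ => D * m) := fun a b hab =>
    Nat.eq_of_mul_eq_mul_left hD hab
  rw [← Finset.card_image_of_injective S hinj]
  apply Omega.card_congr_le (d * M) (D * x) (Nat.mul_pos hd hM)
  · intro n hn
    obtain ⟨m, hm, rfl⟩ := mem_image.1 hn
    exact Nat.mul_le_mul_left _ (hS m hm)
  · intro n hn n' hn'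
    obtain ⟨m, hm, rfl⟩ := mem_image.1 hn
    obtain ⟨m', hm', rfl⟩ := mem_image.1 hn'
    rw [← Nat.modEq_and_modEq_iff_modEq_mul hco]
    constructor
    · exact Nat.ModEq.mul_left D (h1 m hm m' hm')
    · rw [Nat.ModEq.comm, Nat.modEq_iff_dvd]
      have := h2 m hm m' hm'
      rw [mul_sub] at this
      push_cast
      exact this

open Classical in
/-- the values with divisor `d` and `M` dividing the value of the separable polynomial `h` -/
theorem count_dM (f h u v : ℤ[X]) {k kh : ℕ} (hk : f.natDegree = k) (hk1 : 1 ≤ k)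
    (hkh : h.natDegree = kh) (hkh1 : 1 ≤ kh) {Δ : ℤ} (hΔ : Δ ≠ 0)
    (e : u * h + v * derivative h = C Δ) {d M x : ℕ} (hd : Squarefree d) (hM : 0 < M)
    (hco : Nat.Coprime d M) (S : Finset ℕ) (hS : ∀ m ∈ S, m ≤ x ∧ (d : ℤ) ∣ f.eval (m : ℤ) ∧
      (M : ℤ) ∣ h.eval (m : ℤ)) :
    S.card ≤ (f.leadingCoeff.natAbs * k ^ d.primeFactors.card) *
      ((h.leadingCoeff.natAbs * kh ^ M.primeFactors.card) * Δ.natAbs) *
        (Δ.natAbs * x / (d * M) + 1) := by
  have hd0 : 0 < d := Nat.pos_of_ne_zero hd.ne_zero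
  have hD0 : 0 < Δ.natAbs := Int.natAbs_pos.2 hΔ
  set D := Δ.natAbs with hD
  set r : ℕ := ∏ p ∈ M.primeFactors, p with hr
  have hr0 : 0 < r := prod_pos (fun p hp => (Nat.prime_of_mem_primeFactors hp).pos)
  have hrM : r ∣ M := Nat.prod_primeFactors_dvd M
  have hrp : r.primeFactors = M.primeFactors :=
    Nat.primeFactors_prod (fun p hp => Nat.prime_of_mem_primeFactors hp)
  have hrsq : Squarefree r := by
    rw [hr]
    apply Finset.squarefree_prod_of_pairwise_isCoprime
    · intro p hp q hq hpq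
      rw [Function.onFun, ← Nat.coprime_iff_isRelPrime]
      exact (Nat.coprime_primes (Nat.prime_of_mem_primeFactors hp)
        (Nat.prime_of_mem_primeFactors hq)).2 hpq
    · intro p hp
      exact (Nat.prime_of_mem_primeFactors hp).prime.squarefree
  set t : Finset (ℕ × (ℕ × ℕ)) := Rt f d ×ˢ (Rt h r ×ˢ range D) with ht
  have h1 := card_le_mul_card_image_of_maps_to (s := S) (t := t)
    (f := fun m => (m % d, (m % r, (m / r) % D))) (fun m hm => by
      obtain ⟨h2, h3, h4⟩ := hS m hm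
      rw [ht, mem_product, mem_product, mem_Rt, mem_Rt, mem_range]
      refine ⟨⟨Nat.mod_lt _ hd0, (eval_mod f d m).1 h3⟩, ⟨Nat.mod_lt _ hr0, ?_⟩,
        Nat.mod_lt _ hD0⟩
      exact (eval_mod h r m).1 ((Int.natCast_dvd_natCast.2 hrM).trans h4))
    (D * x / (d * M) + 1) (fun b _ => by
      apply card_le hd0 hM hD0 hco _ (fun m hm => (hS m (mem_filter.1 hm).1).1)
      · intro m hm m' hm'
        have e1 := (mem_filter.1 hm).2
        have e2 := (mem_filter.1 hm').2
        rw [← e2] at e1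
        exact (Prod.ext_iff.1 e1).1
      · intro m hm m' hm'
        have e1 := (mem_filter.1 hm).2
        have e2 := (mem_filter.1 hm').2
        rw [← e2] at e1
        have e3 := (Prod.ext_iff.1 (Prod.ext_iff.1 e1).2).1
        have e4 := (Prod.ext_iff.1 (Prod.ext_iff.1 e1).2).2
        simp only at e3 e4
        have h5 := (hS m (mem_filter.1 hm).1).2.2
        have h6 := (hS m' (mem_filter.1 hm').1).2.2
        have e5 : m ≡ m' [MOD r * D] := by
          have h7 := Nat.mod_mul (a := r) (b := D) (x := m)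
          have h8 := Nat.mod_mul (a := r) (b := D) (x := m')
          change m % (r * D) = m' % (r * D)
          rw [h7, h8, e3, e4]
        have e6 : ((r * D : ℕ) : ℤ) ∣ (m : ℤ) - m' := by
          have := (Nat.modEq_iff_dvd.1 e5.symm)
          exact this
        have h9 := lift_key e h5 h6 (fun p hp hpM => by
          refine dvd_trans ?_ e6
          rw [← Int.natAbs_dvd_natAbs, Int.natAbs_mul, Int.natAbs_natCast, Int.natAbs_natCast]
          apply Nat.mul_dvd_mul_right
          rw [hr]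
          exact dvd_prod_of_mem _ (Nat.mem_primeFactors.2 ⟨hp, hpM, hM.ne'⟩))
        rw [← Int.natAbs_dvd_natAbs, Int.natAbs_mul] at h9 ⊢
        rw [Int.natAbs_natCast D]
        exact h9)
  refine h1.trans ?_
  rw [ht, card_product, card_product, card_range, mul_comm]
  apply Nat.mul_le_mul_right
  apply Nat.mul_le_mul (Rt_card f hk hk1 hd)
  apply Nat.mul_le_mul_right
  have := Rt_card h hkh hkh1 hrsq
  rwa [hrp] at this

end Pool.Agent.L0h43.PL
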