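import Pool.Agent.L0h43.PL.Cnt

set_option autoImplicit false

/-!
# Polynomial values which are Lehmer numbers: the final bound
-/

namespace Pool.Agent.L0h43.PL

open Finset Polynomial
open Pool.Agent.H95R2.Leh Pool.Agent.R330.LT

theorem pow_omega_le (k : ℕ) (hk : 1 ≤ k) (η : ℝ) (hη : 0 < η) : ∃ C : ℝ, 1 ≤ C ∧ ∀ d : ℕ, d ≠ 0 →
    ((k ^ d.primeFactors.card : ℕ) : ℝ) ≤ C * (d : ℝ) ^ η := by
  have hkR : (0 : ℝ) < k := by exact_mod_cast hk
  obtain ⟨C0, hC0, h0⟩ := H353.divisor_bound_real (η / k) (by positivity)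
  refine ⟨max 1 (C0 ^ k), le_max_left _ _, fun d hd => ?_⟩
  have h1 : k ^ d.primeFactors.card ≤ d.divisors.card ^ k := by
    calc k ^ d.primeFactors.card ≤ (2 ^ k) ^ d.primeFactors.card :=
          Nat.pow_le_pow_left (Nat.lt_two_pow_self).le _
      _ = (2 ^ d.primeFactors.card) ^ k := by rw [← pow_mul, ← pow_mul, mul_comm]
      _ ≤ d.divisors.card ^ k := Nat.pow_le_pow_left (two_pow_le hd) _
  have h2 : ((d.divisors.card : ℝ)) ^ k ≤ (C0 * (d : ℝ) ^ (η / k)) ^ k :=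
    pow_le_pow_left₀ (Nat.cast_nonneg _) (h0 d hd) k
  have h3 : ((d : ℝ) ^ (η / k)) ^ k = (d : ℝ) ^ η := by
    rw [← Real.rpow_natCast, ← Real.rpow_mul (Nat.cast_nonneg _)]
    congr 1
    field_simp
  rw [mul_pow, h3] at h2
  calc ((k ^ d.primeFactors.card : ℕ) : ℝ) ≤ ((d.divisors.card ^ k : ℕ) : ℝ) := by exact_mod_cast h1
    _ = ((d.divisors.card : ℝ)) ^ k := by push_cast; ring
    _ ≤ C0 ^ k * (d : ℝ) ^ η := h2
    _ ≤ max 1 (C0 ^ k) * (d : ℝ) ^ η :=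
        mul_le_mul_of_nonneg_right (le_max_right _ _) (by positivity)

theorem omega_bound (f : ℤ[X]) {k : ℕ} (hk : f.natDegree = k) (η : ℝ) (hη : 0 < η) :
    ∃ C : ℝ, 1 ≤ C ∧ ∀ x : ℕ, 1 ≤ x → ∀ m ∈ Icc 1 x, ∀ n : ℕ, n ≠ 0 → f.eval (m : ℤ) = n →
      (n.primeFactors.card : ℝ) ≤ C * (x : ℝ) ^ η := by
  have hlog2 : 0 < Real.log 2 := Real.log_pos (by norm_num)
  have hCf1 : 1 ≤ Cf f := by unfold Cf; omega
  have hCfR : (1 : ℝ) ≤ Cf f := by exact_mod_cast hCf1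
  refine ⟨Real.log (Cf f) / Real.log 2 + k / (η * Real.log 2) + 1, ?_, ?_⟩
  · have h1 : 0 ≤ Real.log (Cf f) := Real.log_nonneg hCfR
    have : 0 ≤ Real.log (Cf f) / Real.log 2 + k / (η * Real.log 2) := by positivity
    linarith
  intro x hx m hm n hn hfn
  have hX1 : (1 : ℝ) ≤ x := by exact_mod_cast hx
  have hX0 : (0 : ℝ) < x := by linarith
  have hxη : (1 : ℝ) ≤ (x : ℝ) ^ η := Real.one_le_rpow hX1 hη.le
  have hlogx : Real.log x ≤ (x : ℝ) ^ η / η := Real.log_le_rpow_div hX0.le hη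
  have h1 : 2 ^ n.primeFactors.card ≤ Cf f * x ^ k :=
    (two_pow_le hn).trans ((Nat.card_divisors_le_self n).trans (eval_le f hk hm hfn))
  have h2 : (2 : ℝ) ^ n.primeFactors.card ≤ Cf f * (x : ℝ) ^ k := by exact_mod_cast h1
  have h3 := Real.log_le_log (by positivity) h2
  rw [Real.log_pow, Real.log_mul (by positivity) (by positivity), Real.log_pow] at h3
  have h4 : (n.primeFactors.card : ℝ) ≤
      Real.log (Cf f) / Real.log 2 + k * ((x : ℝ) ^ η / η) / Real.log 2 := by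
    rw [← add_div, le_div_iff₀ hlog2]
    have := mul_le_mul_of_nonneg_left hlogx (show (0 : ℝ) ≤ k by positivity)
    linarith
  have h5 : 0 ≤ Real.log (Cf f) / Real.log 2 := div_nonneg (Real.log_nonneg hCfR) hlog2.le
  have h6 : k * ((x : ℝ) ^ η / η) / Real.log 2 = k / (η * Real.log 2) * (x : ℝ) ^ η := by
    field_simp
  rw [h6] at h4
  nlinarith

/-- the bound for the integers `m` with a given divisor `d` of `f(m)` -/
theorem count_one (f h u v : ℤ[X]) {k kh : ℕ} (hk : f.natDegree = k) (hk1 : 1 ≤ k)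
    (hkh : h.natDegree = kh) (hkh1 : 1 ≤ kh) {Δ : ℤ} (hΔ : Δ ≠ 0)
    (e : u * h + v * derivative h = C Δ) {c : ℤ} (hc : c ≠ 0) {μ : ℕ} (hμ : 1 ≤ μ)
    (hch : (f - 1) ∣ C c * h ^ μ) (η : ℝ) (hη : 0 < η) :
    ∃ K : ℝ, 1 ≤ K ∧ ∀ x : ℕ, 1 ≤ x → ∀ R Z : ℝ, 1 ≤ R → 1 ≤ Z → Z ^ (μ + 1) = (x : ℝ) ^ μ →
      ∀ d : ℕ, Squarefree d → Nat.Coprime d d.totient → d ≤ x → Z / (16 * R) < (d : ℝ) →
      (d : ℝ) ≤ (R + 1) * d.totient → ∀ S : Finset ℕ,
      (∀ m ∈ S, m ≤ x ∧ (d : ℤ) ∣ f.eval (m : ℤ) ∧ (d.totient : ℤ) ∣ f.eval (m : ℤ) - 1) →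
      (S.card : ℝ) ≤ K * (x : ℝ) ^ (2 * η) * R ^ 4 := by
  obtain ⟨C1, hC1, h1⟩ := pow_omega_le k hk1 η hη
  obtain ⟨C2, hC2, h2⟩ := pow_omega_le kh hkh1 η hη
  set a : ℝ := (f.leadingCoeff.natAbs : ℝ) with ha
  set b : ℝ := (h.leadingCoeff.natAbs : ℝ) with hb
  set D : ℝ := (Δ.natAbs : ℝ) with hD
  set cc : ℝ := (c.natAbs : ℝ) with hcc
  have hcc1 : 1 ≤ cc := by
    rw [hcc]
    exact_mod_cast Int.natAbs_pos.2 hc
  have hD1 : 1 ≤ D := by
    rw [hD]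
    exact_mod_cast Int.natAbs_pos.2 hΔ
  have ha0 : 0 ≤ a := Nat.cast_nonneg _
  have hb0 : 0 ≤ b := Nat.cast_nonneg _
  refine ⟨a * C1 * (b * C2 * D) * (D * (32 * cc) ^ 2 + 1) + 1, ?_, ?_⟩
  · have : 0 ≤ a * C1 * (b * C2 * D) * (D * (32 * cc) ^ 2 + 1) := by positivity
    linarith
  intro x hx R Z hR hZ hZx d hdsq hdco hdx hdZ hdt S hS
  have hX1 : (1 : ℝ) ≤ x := by exact_mod_cast hx
  have hX0 : (0 : ℝ) < x := by linarith
  have hd0 : 0 < d := Nat.pos_of_ne_zero hdsq.ne_zero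
  have hdR : (0 : ℝ) < d := by exact_mod_cast hd0
  have ht0 : 0 < d.totient := Nat.totient_pos.2 hd0
  set g := Nat.gcd d.totient c.natAbs with hg
  have hg0 : 0 < g := Nat.gcd_pos_of_pos_left _ ht0
  obtain ⟨N, hN⟩ : g ∣ d.totient := Nat.gcd_dvd_left _ _
  have hN0 : 0 < N := by
    rcases Nat.eq_zero_or_pos N with h0 | h0
    · rw [h0, mul_zero] at hN
      omega
    · exact h0
  obtain ⟨M, hM0, hMN, hNM, hMy⟩ := exists_min_root hN0 hμ
  have hNt : N ∣ d.totient := ⟨g, by rw [hN, mul_comm]⟩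
  have hMt : M ∣ d.totient := hMN.trans hNt
  have hco : Nat.Coprime d M := Nat.Coprime.coprime_dvd_right hMt hdco
  -- M divides h(m)
  have hS' : ∀ m ∈ S, m ≤ x ∧ (d : ℤ) ∣ f.eval (m : ℤ) ∧ (M : ℤ) ∣ h.eval (m : ℤ) := by
    intro m hm
    obtain ⟨e1, e2, e3⟩ := hS m hm
    refine ⟨e1, e2, hMy _ ?_⟩
    obtain ⟨Q, hQ⟩ := hch
    have e4 : c * (h.eval (m : ℤ)) ^ μ = (f.eval (m : ℤ) - 1) * Q.eval (m : ℤ) := by
      have := congrArg (Polynomial.eval (m : ℤ)) hQ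
      simpa using this
    have e5 : (d.totient : ℤ) ∣ c * (h.eval (m : ℤ)) ^ μ := by
      rw [e4]; exact e3.mul_right _
    rw [Int.natCast_dvd] at e5 ⊢
    rw [Int.natAbs_mul] at e5
    obtain ⟨c', hc'⟩ : g ∣ c.natAbs := Nat.gcd_dvd_right _ _
    have hcop : Nat.Coprime N c' := by
      have h3 := Nat.coprime_div_gcd_div_gcd (m := d.totient) (n := c.natAbs) hg0
      rw [← hg] at h3
      have e6 : d.totient / g = N := Nat.div_eq_of_eq_mul_right hg0 hN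
      have e7 : c.natAbs / g = c' := Nat.div_eq_of_eq_mul_right hg0 hc'
      rwa [e6, e7] at h3
    rw [hN, hc', mul_assoc] at e5
    have e8 := Nat.dvd_of_mul_dvd_mul_left hg0 e5
    exact hcop.dvd_of_dvd_mul_left e8
  have hcnt := count_dM f h u v hk hk1 hkh hkh1 hΔ e hdsq hM0 hco S hS'
  -- sizes
  have hMx : M ≤ x := (Nat.le_of_dvd ht0 hMt).trans ((Nat.totient_le d).trans hdx)
  have hp1 : ((k ^ d.primeFactors.card : ℕ) : ℝ) ≤ C1 * (x : ℝ) ^ η :=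
    (h1 d hd0.ne').trans (mul_le_mul_of_nonneg_left
      (Real.rpow_le_rpow (Nat.cast_nonneg _) (by exact_mod_cast hdx) hη.le) (by linarith))
  have hp2 : ((kh ^ M.primeFactors.card : ℕ) : ℝ) ≤ C2 * (x : ℝ) ^ η :=
    (h2 M hM0.ne').trans (mul_le_mul_of_nonneg_left
      (Real.rpow_le_rpow (Nat.cast_nonneg _) (by exact_mod_cast hMx) hη.le) (by linarith))
  have hMR : (0 : ℝ) < M := by exact_mod_cast hM0
  set W : ℝ := 16 * R * (R + 1) * cc with hW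
  have hW1 : 1 ≤ W := by
    have e1 : 1 ≤ R * (R + 1) := by nlinarith
    have e2 : 1 ≤ R * (R + 1) * cc := one_le_mul_of_one_le_of_one_le e1 hcc1
    rw [hW]
    nlinarith
  have hW0 : 0 < W := by linarith
  have hdW : Z / W ≤ d := by
    refine le_trans ?_ hdZ.le
    apply div_le_div_of_nonneg_left (by linarith) (by positivity)
    rw [hW]
    have : 1 ≤ (R + 1) * cc := one_le_mul_of_one_le_of_one_le (by linarith) hcc1
    nlinarith
  have hNge : Z / W ≤ N := by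
    have e1 : (d.totient : ℝ) ≤ cc * N := by
      rw [hN]
      push_cast
      apply mul_le_mul_of_nonneg_right _ (Nat.cast_nonneg _)
      rw [hcc]
      exact_mod_cast Nat.le_of_dvd (Int.natAbs_pos.2 hc) (Nat.gcd_dvd_right _ _)
    rw [div_le_iff₀ hW0]
    rw [div_lt_iff₀ (by positivity)] at hdZ
    have e2 : (d : ℝ) ≤ (R + 1) * (cc * N) :=
      hdt.trans (mul_le_mul_of_nonneg_left e1 (by linarith))
    have e3 : (d : ℝ) * (16 * R) ≤ (R + 1) * (cc * N) * (16 * R) :=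
      mul_le_mul_of_nonneg_right e2 (by linarith)
    calc Z ≤ d * (16 * R) := hdZ.le
      _ ≤ (R + 1) * (cc * N) * (16 * R) := e3
      _ = N * W := by rw [hW]; ring
  have hMμ : (N : ℝ) ≤ (M : ℝ) ^ μ := by
    have := Nat.le_of_dvd (pow_pos hM0 μ) hNM
    exact_mod_cast this
  have hZW0 : 0 ≤ Z / W := by positivity
  have hdM : (x : ℝ) / W ^ 2 ≤ d * M := by
    have e1 : ((x : ℝ) / W ^ 2) ^ μ ≤ ((d : ℝ) * M) ^ μ := by
      calc ((x : ℝ) / W ^ 2) ^ μ = (x : ℝ) ^ μ / W ^ (2 * μ) := by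
            rw [div_pow, ← pow_mul]
        _ ≤ (x : ℝ) ^ μ / W ^ (μ + 1) := by
            apply div_le_div_of_nonneg_left (by positivity) (by positivity)
            exact pow_le_pow_right₀ hW1 (by omega)
        _ = (Z / W) ^ μ * (Z / W) := by
            rw [← hZx, ← pow_succ, div_pow]
        _ ≤ (d : ℝ) ^ μ * (M : ℝ) ^ μ := by
            apply mul_le_mul (pow_le_pow_left₀ hZW0 hdW μ) (hNge.trans hMμ) hZW0 (by positivity)
        _ = ((d : ℝ) * M) ^ μ := (mul_pow _ _ _).symm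
    exact le_of_pow_le_pow_left₀ (by omega) (by positivity) e1
  have hquot : ((Δ.natAbs * x / (d * M) : ℕ) : ℝ) ≤ D * W ^ 2 := by
    calc ((Δ.natAbs * x / (d * M) : ℕ) : ℝ) ≤ ((Δ.natAbs * x : ℕ) : ℝ) / ((d * M : ℕ) : ℝ) :=
          Nat.cast_div_le
      _ = D * (x / (d * M)) := by push_cast; rw [hD]; ring
      _ ≤ D * W ^ 2 := by
          apply mul_le_mul_of_nonneg_left _ (by linarith)
          rw [div_le_iff₀ (by positivity)]
          rw [div_le_iff₀ (by positivity)] at hdM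
          linarith
  have hW2 : W ≤ 32 * cc * R ^ 2 := by
    rw [hW]
    have e1 : R + 1 ≤ 2 * R := by linarith
    have e2 : 16 * R * (R + 1) ≤ 16 * R * (2 * R) := mul_le_mul_of_nonneg_left e1 (by linarith)
    have e3 := mul_le_mul_of_nonneg_right e2 (show 0 ≤ cc by linarith)
    linarith
  have hW4 : W ^ 2 ≤ (32 * cc) ^ 2 * R ^ 4 := by
    calc W ^ 2 ≤ (32 * cc * R ^ 2) ^ 2 := pow_le_pow_left₀ hW0.le hW2 2
      _ = (32 * cc) ^ 2 * R ^ 4 := by ring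
  have hR4 : 1 ≤ R ^ 4 := one_le_pow₀ hR
  have hcR : (S.card : ℝ) ≤ (a * ((k ^ d.primeFactors.card : ℕ) : ℝ)) *
      ((b * ((kh ^ M.primeFactors.card : ℕ) : ℝ)) * D) *
        (((Δ.natAbs * x / (d * M) : ℕ) : ℝ) + 1) := by
    rw [ha, hb, hD]
    exact_mod_cast hcnt
  have hfac : ((Δ.natAbs * x / (d * M) : ℕ) : ℝ) + 1 ≤ (D * (32 * cc) ^ 2 + 1) * R ^ 4 := by
    have e1 : D * W ^ 2 ≤ D * ((32 * cc) ^ 2 * R ^ 4) :=
      mul_le_mul_of_nonneg_left hW4 (by linarith)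
    have e2 : (D * (32 * cc) ^ 2 + 1) * R ^ 4 = D * ((32 * cc) ^ 2 * R ^ 4) + R ^ 4 := by ring
    rw [e2]
    exact add_le_add (hquot.trans e1) hR4
  have hxx : (x : ℝ) ^ (2 * η) = (x : ℝ) ^ η * (x : ℝ) ^ η := by
    rw [← Real.rpow_add hX0]
    congr 1
    ring
  have hxη : 0 ≤ (x : ℝ) ^ η := by positivity
  calc (S.card : ℝ) ≤ _ := hcR
    _ ≤ (a * (C1 * (x : ℝ) ^ η)) * ((b * (C2 * (x : ℝ) ^ η)) * D) *
        ((D * (32 * cc) ^ 2 + 1) * R ^ 4) := by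
        apply mul_le_mul _ hfac (by positivity) (by positivity)
        apply mul_le_mul
        · exact mul_le_mul_of_nonneg_left hp1 ha0
        · exact mul_le_mul_of_nonneg_right (mul_le_mul_of_nonneg_left hp2 hb0) (by linarith)
        · positivity
        · positivity
    _ = (a * C1 * (b * C2 * D) * (D * (32 * cc) ^ 2 + 1)) * (x : ℝ) ^ (2 * η) * R ^ 4 := by
        rw [hxx]; ring
    _ ≤ (a * C1 * (b * C2 * D) * (D * (32 * cc) ^ 2 + 1) + 1) * (x : ℝ) ^ (2 * η) * R ^ 4 := by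
        apply mul_le_mul_of_nonneg_right _ (by positivity)
        apply mul_le_mul_of_nonneg_right _ (by positivity)
        linarith

theorem count_poly (f : ℤ[X]) (hk1 : 1 ≤ f.natDegree) {μ : ℕ}
    (hμ : ∀ z : ℂ, ((f - 1).map (Int.castRingHom ℂ)).rootMultiplicity z ≤ μ)
    (ε : ℝ) (hε : 0 < ε) :
    ∃ K : ℝ, 0 < K ∧ ∀ x : ℕ, 1 ≤ x → ∀ A : Finset ℕ,
      (∀ m ∈ A, m ∈ Icc 1 x ∧ ∃ n : ℕ, f.eval (m : ℤ) = n ∧ Leh n) →
      (A.card : ℝ) ≤ K * (x : ℝ) ^ ((μ : ℝ) / (μ + 1) + ε) := by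
  classical
  set g : ℤ[X] := f - 1 with hg
  have hgC : g = f - C 1 := by rw [hg, C_1]
  have hgdeg : g.natDegree = f.natDegree := by rw [hgC, natDegree_sub_C]
  have hg0 : g.map (Int.castRingHom ℂ) ≠ 0 := by
    rw [Ne, Polynomial.map_eq_zero_iff (Int.cast_injective)]
    intro h0
    rw [h0] at hgdeg
    simp at hgdeg
    omega
  have hμ1 : 1 ≤ μ := by
    have hdeg : (g.map (Int.castRingHom ℂ)).degree ≠ 0 := by
      intro h0
      have h1 := Polynomial.natDegree_eq_of_degree_eq_some h0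
      rw [Polynomial.natDegree_map_eq_of_injective (Int.cast_injective), hgdeg] at h1
      rw [h1] at hk1
      exact absurd hk1 (by norm_num)
    obtain ⟨z, hz⟩ := IsAlgClosed.exists_root _ hdeg
    have h1 := (Polynomial.rootMultiplicity_pos hg0).2 hz
    exact le_trans h1 (hμ z)
  obtain ⟨h, u, v, Δ, c, hΔ, hc, hhd, he, hdvd⟩ := exists_sep (g := g) (by omega) hμ1 hμ
  set k := f.natDegree with hk
  set η : ℝ := ε / 6 with hη
  have hη0 : 0 < η := by positivity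
  obtain ⟨C1, hC1, h1⟩ := omega_bound f rfl η hη0
  obtain ⟨K, hK, h2⟩ := count_one f h u v rfl hk1 rfl hhd hΔ he hc hμ1 hdvd η hη0
  refine ⟨2 * k + K * C1 ^ 4, by positivity, fun x hx A hA => ?_⟩
  have hX1 : (1 : ℝ) ≤ x := by exact_mod_cast hx
  have hX0 : (0 : ℝ) < x := by linarith
  have hμR : (0 : ℝ) < μ := by exact_mod_cast hμ1
  set Z : ℝ := (x : ℝ) ^ ((μ : ℝ) / (μ + 1)) with hZ
  have hZ1 : 1 ≤ Z := Real.one_le_rpow hX1 (by positivity)
  have hZx : Z ≤ x := by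
    calc Z ≤ (x : ℝ) ^ (1 : ℝ) := by
          apply Real.rpow_le_rpow_of_exponent_le hX1
          rw [div_le_one (by positivity)]
          linarith
      _ = x := Real.rpow_one _
  have hZpow : Z ^ (μ + 1) = (x : ℝ) ^ μ := by
    rw [hZ, ← Real.rpow_natCast, ← Real.rpow_mul hX0.le, ← Real.rpow_natCast]
    congr 1
    push_cast
    field_simp
  set R : ℝ := C1 * (x : ℝ) ^ η with hR
  have hxη : (1 : ℝ) ≤ (x : ℝ) ^ η := Real.one_le_rpow hX1 hη0.le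
  have hR1 : 1 ≤ R := one_le_mul_of_one_le_of_one_le hC1 hxη
  -- small values
  set A1 := A.filter (fun m : ℕ => ∃ n : ℕ, f.eval (m : ℤ) = n ∧ n < ⌈Z⌉₊) with hA1
  have hA1c : (A1.card : ℝ) ≤ 2 * k * Z := by
    have e1 := small_values f rfl hk1 ⌈Z⌉₊ A1 (fun m hm => (mem_filter.1 hm).2)
    have e2 : (A1.card : ℝ) ≤ k * (⌈Z⌉₊ : ℝ) := by exact_mod_cast e1
    have e3 : (⌈Z⌉₊ : ℝ) ≤ Z + 1 := (Nat.ceil_lt_add_one (by linarith)).le
    have e4 : (k : ℝ) * (⌈Z⌉₊ : ℝ) ≤ k * (2 * Z) :=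
      mul_le_mul_of_nonneg_left (by linarith) (Nat.cast_nonneg _)
    linarith
  set D : Finset ℕ := (Icc 1 ⌊Z⌋₊).filter (fun d => Squarefree d ∧ Nat.Coprime d d.totient ∧
    Z / (16 * R) < (d : ℝ) ∧ (d : ℝ) ≤ (R + 1) * d.totient) with hD
  set Cd : ℕ → Finset ℕ := fun d => A.filter (fun m : ℕ => (d : ℤ) ∣ f.eval (m : ℤ) ∧
      (d.totient : ℤ) ∣ f.eval (m : ℤ) - 1) with hCd
  have hsub : A ⊆ A1 ∪ D.biUnion Cd := by
    intro m hm
    obtain ⟨hm1, n, e1, e2⟩ := hA m hm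
    rw [mem_union]
    rcases Nat.lt_or_ge n ⌈Z⌉₊ with e4 | e4
    · left
      rw [hA1, mem_filter]
      exact ⟨hm, n, e1, e4⟩
    · right
      have hZn : Z ≤ n := Nat.ceil_le.1 e4
      have hn0 : n ≠ 0 := by have := e2.1; omega
      have hωn := h1 x hx m hm1 n hn0 e1
      obtain ⟨d, e5, e6, e7⟩ := exists_div e2 hR1 hωn hZ1 hZn
      obtain ⟨hsq, hodd, hco⟩ := leh_basic e2
      have hd0 : d ≠ 0 := by
        rintro rfl
        exact hn0 (zero_dvd_iff.1 e5)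
      have htot : d.totient ∣ n - 1 := (Nat.totient_dvd_of_dvd e5).trans e2.2.2
      rw [mem_biUnion]
      refine ⟨d, ?_, ?_⟩
      · rw [hD, mem_filter, mem_Icc]
        refine ⟨⟨Nat.one_le_iff_ne_zero.2 hd0, Nat.le_floor e7⟩, hsq.squarefree_of_dvd e5, ?_,
          e6, ?_⟩
        · exact (Nat.Coprime.coprime_dvd_left e5 hco).coprime_dvd_right
            (Nat.totient_dvd_of_dvd e5)
        · have e8 := le_omega_mul_totient d
          have e9 : d.primeFactors.card ≤ n.primeFactors.card :=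
            card_le_card (Nat.primeFactors_mono e5 hn0)
          have e10 : (d : ℝ) ≤ ((d.primeFactors.card : ℝ) + 1) * d.totient := by exact_mod_cast e8
          refine e10.trans (mul_le_mul_of_nonneg_right ?_ (Nat.cast_nonneg _))
          have : (d.primeFactors.card : ℝ) ≤ n.primeFactors.card := by exact_mod_cast e9
          linarith
      · rw [hCd, mem_filter, e1]
        refine ⟨hm, by exact_mod_cast e5, ?_⟩
        have hn1 : 1 ≤ n := e2.1.le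
        have : ((n : ℤ) - 1) = ((n - 1 : ℕ) : ℤ) := by push_cast [Nat.cast_sub hn1]; ring
        rw [this]
        exact_mod_cast htot
  have hCdc : ∀ d ∈ D, ((Cd d).card : ℝ) ≤ K * (x : ℝ) ^ (2 * η) * R ^ 4 := by
    intro d hd
    rw [hD, mem_filter, mem_Icc] at hd
    obtain ⟨⟨e1, e2⟩, e3, e4, e5, e6⟩ := hd
    have hdx : d ≤ x := by
      have e7 : (d : ℝ) ≤ Z := (Nat.le_floor_iff (by linarith)).1 e2
      have e8 : (d : ℝ) ≤ x := e7.trans hZx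
      exact_mod_cast e8
    refine h2 x hx R Z hR1 hZ1 hZpow d e3 e4 hdx e5 e6 (Cd d) (fun m hm => ?_)
    rw [hCd, mem_filter] at hm
    exact ⟨(mem_Icc.1 (hA m hm.1).1).2, hm.2.1, hm.2.2⟩
  have hDc : (D.card : ℝ) ≤ Z := by
    have e1 : D.card ≤ ⌊Z⌋₊ := by
      refine (card_filter_le _ _).trans ?_
      rw [Nat.card_Icc]
      omega
    have e2 : (D.card : ℝ) ≤ (⌊Z⌋₊ : ℝ) := by exact_mod_cast e1
    exact e2.trans (Nat.floor_le (by linarith))
  have hR4 : R ^ 4 = C1 ^ 4 * (x : ℝ) ^ (4 * η) := by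
    rw [hR, mul_pow]
    congr 1
    rw [← Real.rpow_natCast, ← Real.rpow_mul hX0.le]
    congr 1
    push_cast
    ring
  have hx6 : (x : ℝ) ^ (2 * η) * (x : ℝ) ^ (4 * η) = (x : ℝ) ^ ε := by
    rw [← Real.rpow_add hX0]
    congr 1
    rw [hη]
    ring
  have hxε : (1 : ℝ) ≤ (x : ℝ) ^ ε := Real.one_le_rpow hX1 hε.le
  have hbi : ((D.biUnion Cd).card : ℝ) ≤ Z * (K * C1 ^ 4 * (x : ℝ) ^ ε) := by
    have e1 : ((D.biUnion Cd).card : ℝ) ≤ ∑ d ∈ D, ((Cd d).card : ℝ) := by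
      exact_mod_cast card_biUnion_le (s := D) (t := Cd)
    refine e1.trans ((sum_le_sum hCdc).trans ?_)
    rw [sum_const, nsmul_eq_mul, hR4]
    have e2 : K * (x : ℝ) ^ (2 * η) * (C1 ^ 4 * (x : ℝ) ^ (4 * η)) = K * C1 ^ 4 * (x : ℝ) ^ ε := by
      rw [← hx6]; ring
    rw [e2]
    exact mul_le_mul_of_nonneg_right hDc (by positivity)
  have htotal : (A.card : ℝ) ≤ 2 * k * Z + Z * (K * C1 ^ 4 * (x : ℝ) ^ ε) := by
    have e1 : A.card ≤ A1.card + (D.biUnion Cd).card :=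
      (card_le_card hsub).trans (card_union_le _ _)
    have e2 : (A.card : ℝ) ≤ A1.card + (D.biUnion Cd).card := by exact_mod_cast e1
    linarith
  calc (A.card : ℝ) ≤ 2 * k * Z + Z * (K * C1 ^ 4 * (x : ℝ) ^ ε) := htotal
    _ ≤ 2 * k * (Z * (x : ℝ) ^ ε) + Z * (K * C1 ^ 4 * (x : ℝ) ^ ε) := by
        apply add_le_add _ le_rfl
        apply mul_le_mul_of_nonneg_left _ (by positivity)
        nlinarith
    _ = (2 * k + K * C1 ^ 4) * (Z * (x : ℝ) ^ ε) := by ring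
    _ = (2 * k + K * C1 ^ 4) * (x : ℝ) ^ ((μ : ℝ) / (μ + 1) + ε) := by
        rw [hZ, ← Real.rpow_add hX0]

end Pool.Agent.L0h43.PL
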